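import Pool.Agent.H92.RP5

namespace Pool.Agent.Results.MP_a02827_an.Riesz
open MeasureTheory Set
open scoped ContDiff

/-- Euclidean space of dimension `d`. -/
abbrev E (d : ℕ) := EuclideanSpace ℝ (Fin d)

/-- `k`-antisymmetry: for every real subspace `L` of dimension `k + 1`, the lines `Ω ξ`, with `ξ`
a unit vector of `L`, have trivial intersection. -/
def Antisym {d : ℕ} (Ω : E d → Submodule ℂ (Fin d → ℂ)) (k : ℕ) : Prop :=
  ∀ L : Submodule ℝ (E d), Module.finrank ℝ L = k + 1 →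
    (⨅ ξ ∈ {ξ : E d | ξ ∈ L ∧ ‖ξ‖ = 1}, Ω ξ) = ⊥

/-- The number `a(Ω)`: the least `k ≤ d - 1` such that `Ω` is `k`-antisymmetric. -/
noncomputable def aOm {d : ℕ} (Ω : E d → Submodule ℂ (Fin d → ℂ)) : ℕ :=
  sInf {k | k ≤ d - 1 ∧ Antisym Ω k}

/-- The complex line spanned by `w ξ`. -/
def line {d : ℕ} (w : E d → Fin d → ℂ) (ξ : E d) : Submodule ℂ (Fin d → ℂ) :=
  Submodule.span ℂ {w ξ}

/-- Fourier transform of the vector measure `f ρ`. -/
noncomputable def four {d : ℕ} (ρ : Measure (E d)) (f : E d → Fin d → ℂ) (ξ : E d) : Fin d → ℂ :=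
  ∫ x, Complex.exp (-((inner ℝ x ξ : ℝ) * Complex.I)) • f x ∂ρ

open Pool.Agent.H92.RP in
theorem result : ∃ (d : ℕ) (w : E d → Fin d → ℂ) (ρ : Measure (E d)) (f : E d → Fin d → ℂ)
    (F : Set (E d)),
    2 ≤ d ∧ ContDiff ℝ ∞ w ∧ (∀ ξ, ‖ξ‖ = 1 → w ξ ≠ 0) ∧
    (∃ ξ η : E d, ‖ξ‖ = 1 ∧ ‖η‖ = 1 ∧ line w ξ ≠ line w η) ∧
    IsFiniteMeasure ρ ∧ Integrable f ρ ∧
    (∀ ξ : E d, ξ ≠ 0 → four ρ f ξ ∈ line w (‖ξ‖⁻¹ • ξ)) ∧
    Antisym (line w) 1 ∧
    MeasurableSet F ∧ ∫ x in F, f x ∂ρ ≠ 0 ∧ dimH F + (aOm (line w) : ENNReal) < d := by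
  obtain ⟨n, hn⟩ : ∃ n : ℕ, (49/50 : ℝ) ^ (n + 2) * 64 ≤ 1 := by
    obtain ⟨n, hn⟩ := exists_pow_lt_of_lt_one (by norm_num : (0 : ℝ) < 1/64)
      (by norm_num : (49/50 : ℝ) < 1)
    refine ⟨n, ?_⟩
    have : (0 : ℝ) < (49/50) ^ n := by positivity
    rw [pow_add]; linarith
  obtain ⟨P, Q, F, hP, hQ, hPQ, hF, hPF, hQF, hdim⟩ := exists_PQ n hn
  obtain ⟨w, hw, hw0, hw1, hw2⟩ := exists_omega (n + 1)
  have hne : ∀ ξ, w ξ ≠ 0 := fun ξ h => by have := hw0 ξ; rw [h] at this; simp at this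
  have hA : Antisym (line w) 1 := by
    intro L hL
    obtain ⟨ξ, hξL, hξ1, hξ⟩ := plane_bad L hL
    rw [eq_bot_iff, ← hw2 ξ hξ]
    refine le_inf (iInf₂_le ξ ⟨hξL, hξ1⟩) (iInf₂_le (-ξ) ⟨L.neg_mem hξL, by simpa using hξ1⟩)
  let e : Fin (n + 2) → ℂ := Pi.single 0 1
  have hPa : P ≪ P + Q := Measure.AbsolutelyContinuous.add_right .rfl Q
  have hQa : Q ≪ P + Q := by
    rw [add_comm P Q]; exact Measure.AbsolutelyContinuous.add_right .rfl P
  have hfin : IsFiniteMeasure (P + Q) := inferInstance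
  have hsf : SigmaFinite (P + Q) := inferInstance
  have hdP : P.HaveLebesgueDecomposition (P + Q) :=
    Measure.haveLebesgueDecomposition_of_sigmaFinite P (P + Q)
  have hdQ : Q.HaveLebesgueDecomposition (P + Q) :=
    Measure.haveLebesgueDecomposition_of_sigmaFinite Q (P + Q)
  have iP : Integrable (fun x => (P.rnDeriv (P + Q) x).toReal • e) (P + Q) :=
    (integrable_rnDeriv_smul_iff hPa).2 (integrable_const e)
  have iQ : Integrable (fun x => (Q.rnDeriv (P + Q) x).toReal • e) (P + Q) :=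
    (integrable_rnDeriv_smul_iff hQa).2 (integrable_const e)
  refine ⟨n + 2, w, P + Q,
    fun x => (P.rnDeriv (P + Q) x).toReal • e - (Q.rnDeriv (P + Q) x).toReal • e, F,
    by omega, hw, fun ξ _ => hne ξ, ?_, inferInstance, iP.sub iQ, ?_, hA, hF, ?_, ?_⟩
  · obtain ⟨L, hL⟩ : ∃ L : Submodule ℝ (E (n + 2)), Module.finrank ℝ L = 2 := by
      obtain ⟨f, hf⟩ := exists_linearIndependent_of_le_finrank (R := ℝ) (M := E (n + 2)) (n := 2)
        (by simp)
      exact ⟨Submodule.span ℝ (range f), by rw [finrank_span_eq_card hf]; simp⟩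
    obtain ⟨ξ, -, hξ1, hξ⟩ := plane_bad L hL
    refine ⟨ξ, -ξ, hξ1, by simpa using hξ1, fun h => ?_⟩
    have h2 := hw2 ξ hξ
    unfold line at h
    rw [← h, inf_idem, Submodule.span_singleton_eq_bot] at h2
    exact hne ξ h2
  · intro ξ hξ
    have hg : ∀ (m : Measure (E (n + 2))) [IsFiniteMeasure m], Integrable
        (fun x : E (n + 2) => Complex.exp (-((inner ℝ x ξ : ℝ) * Complex.I)) • e) m := by
      intro m _
      refine Integrable.smul_const ?_ e
      refine Integrable.of_bound (by fun_prop) 1 (.of_forall fun x => ?_)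
      rw [← neg_mul, ← Complex.ofReal_neg, Complex.norm_exp_ofReal_mul_I]
    have hc : ∀ (m : Measure (E (n + 2))),
        ∫ x, Complex.exp (-((inner ℝ x ξ : ℝ) * Complex.I)) • e ∂m = charFun m (-ξ) • e := by
      intro m
      rw [integral_smul_const, charFun_apply]; simp
    have key : four (P + Q) (fun x => (P.rnDeriv (P + Q) x).toReal • e -
        (Q.rnDeriv (P + Q) x).toReal • e) ξ = (charFun P (-ξ) - charFun Q (-ξ)) • e := by
      unfold four
      simp_rw [smul_sub, smul_comm (Complex.exp _)]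
      rw [integral_sub ((integrable_rnDeriv_smul_iff hPa).2 (hg P))
        ((integrable_rnDeriv_smul_iff hQa).2 (hg Q)), integral_rnDeriv_smul hPa,
        integral_rnDeriv_smul hQa, hc, hc, sub_smul]
    rw [key]
    by_cases hb : Bad (‖ξ‖⁻¹ • ξ).ofLp
    · have hn0 : ‖ξ‖ ≠ 0 := norm_ne_zero_iff.2 hξ
      have : Bad (-ξ).ofLp := by
        have h2 := hb.smul (neg_ne_zero.2 hn0)
        simpa [smul_smul, hn0] using h2
      rw [hPQ _ this, sub_self, zero_smul]
      exact Submodule.zero_mem _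
    · unfold line
      rw [hw1 _ hb]
      exact Submodule.smul_mem _ _ (Submodule.mem_span_singleton_self _)
  · rw [integral_sub iP.integrableOn iQ.integrableOn, setIntegral_rnDeriv_smul hPa hF,
      setIntegral_rnDeriv_smul hQa hF, setIntegral_const, setIntegral_const,
      measureReal_def Q, hQF]
    intro h
    have h2 := congrFun h 0
    have h3 : P.real F ≠ 0 := by
      rw [measureReal_def]; exact ENNReal.toReal_ne_zero.2 ⟨hPF, measure_ne_top _ _⟩
    simp [e, h3] at h2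
  · have h1 : aOm (line w) ≤ 1 := Nat.sInf_le ⟨by omega, hA⟩
    have h2 : (aOm (line w) : ENNReal) ≤ 1 := by exact_mod_cast h1
    refine lt_of_le_of_lt (add_le_add hdim h2) ?_
    exact_mod_cast (by omega : n + 1 < n + 2)

end Pool.Agent.Results.MP_a02827_an.Riesz
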